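import Pool.Agent.Q252.CL.Reg

set_option autoImplicit false

/-!
# The length of the continued logarithm expansion of `n` is not `k`-regular for any `k ≥ 2`

Proof. (1) `L (2 ^ N + b)` is bounded for `2 ^ N > b`, but `L (2 ^ N - d)` tends to infinity for every fixed `d ≥ 1`:
an invariant with an odd prime divisor of `d` shows that the algorithm never stops as long as the numbers are small
compared with `2 ^ N`. (2) If `k` is not a power of two, then the powers of two meet more and more residue classes modulo
`k ^ m`, and (1) gives a strictly decreasing chain of more subspaces than the dimension of the span of the kernel allows.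
(3) If `k = 2 ^ e`, then the integer sequences `j ↦ L (2 ^ (e j + t) - 2 ^ t + 1)`, `e ∣ t`, would satisfy one linear
recurrence and have linear growth, so by Kronecker's theorem they would be affine along the multiples of some `T`. But
`L (2 ^ (2 t) - 2 ^ t + 1) = L (2 ^ (3 t) - 2 ^ t + 1) = 2 t + 1`, so they would be constant there, against (1).
-/

namespace Pool.Agent.Results.MP_32f763_nt.NeverRegular

/-- The finite list `cl(p,q)` of the continued logarithm algorithm, for `p ≥ q ≥ 1` (for the two recursion rules see
the theorem). -/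
def cl (p q : ℕ) : List ℕ :=
  if h : 2 ^ Nat.log 2 (p / q) * q < p ∧ 0 < q then
    Nat.log 2 (p / q) :: cl (2 ^ Nat.log 2 (p / q) * q) (p - 2 ^ Nat.log 2 (p / q) * q)
  else [Nat.log 2 (p / q)]
termination_by p
decreasing_by exact h.1

/-- The length `L(n)` of `cl(n,1)` for `n ≥ 1`, and `0` for `n = 0`. -/
def len (n : ℕ) : ℤ := if n = 0 then 0 else ((cl n 1).length : ℤ)

/-- The sequence `a` of integers is `k`-regular: the `ℤ`-module generated by its `k`-kernel is finitely generated. -/
def Regular (k : ℕ) (a : ℕ → ℤ) : Prop :=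
  (Submodule.span ℤ {b : ℕ → ℤ | ∃ e r : ℕ, r < k ^ e ∧ b = fun n => a (k ^ e * n + r)}).FG

theorem cl_eq (p : ℕ) : ∀ q : ℕ, cl p q = Pool.Agent.Q252.CL.cl p q := by
  induction p using Nat.strong_induction_on with
  | _ p ih =>
    intro q
    rw [cl, Pool.Agent.Q252.CL.cl]
    split_ifs with h
    · rw [ih _ h.1]
    · rfl

theorem len_eq : len = Pool.Agent.Q252.CL.len := by
  funext n
  unfold len Pool.Agent.Q252.CL.len Pool.Agent.Q252.CL.L
  rw [cl_eq]

/-- **The sequence of the lengths of the continued logarithm expansions of the positive integers is not `k`-regular,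
for any `k ≥ 2`.** -/
theorem result :
    (∀ q k : ℕ, 0 < q → cl (2 ^ k * q) q = [k]) ∧
    (∀ p q k : ℕ, 0 < q → 2 ^ k * q < p → p < 2 ^ (k + 1) * q →
      cl p q = k :: cl (2 ^ k * q) (p - 2 ^ k * q)) ∧
    ¬ ∃ k : ℕ, 2 ≤ k ∧ Regular k len := by
  refine ⟨?_, ?_, ?_⟩
  · intro q k hq
    rw [cl_eq]
    exact Pool.Agent.Q252.CL.cl_last hq k
  · intro p q k hq h1 h2
    rw [cl_eq, cl_eq]
    exact Pool.Agent.Q252.CL.cl_step hq h1 h2
  · rintro ⟨k, hk, h⟩
    apply Pool.Agent.Q252.CL.not_regular k hk
    rw [len_eq] at h
    exact h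

end Pool.Agent.Results.MP_32f763_nt.NeverRegular
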